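import Pool.Agent.Lib.MP_548236_gt.Asym

set_option autoImplicit false

open Pool.Agent.Lib.MP_548236_gt

namespace Pool.Agent.Results.MP_548236_gt.BoundedAsymmetry

theorem result :
    ∀ n : ℕ, ∀ K : Set (E (n+1)),
      IsOpen K → Convex ℝ K → Bornology.IsBounded K → K.Nonempty →
      ∀ s : ℝ, 0 < s → ∀ x₀ : E (n+1), (∀ x ∈ K, x₀ - s⁻¹ • (x - x₀) ∈ K) →
      upperCap K ≤ (4 / Real.pi * (1 + s) ^ 2) * lowerCap K := by
  intro n K hK hc hb hne s hs x₀ hsym
  exact asym_all hK hc hb hne hs hsym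

end Pool.Agent.Results.MP_548236_gt.BoundedAsymmetry
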