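import Pool.Agent.Lib.MP_548236_gt.Gen

set_option autoImplicit false

open Pool.Agent.Lib.MP_548236_gt

namespace Pool.Agent.Results.MP_548236_gt.ConvexLinear

theorem result :
    ∀ n : ℕ, ∀ K : Set (E (n+1)),
      IsOpen K → Convex ℝ K → Bornology.IsBounded K → K.Nonempty →
      upperCap K ≤ (8 * Real.exp 1 / Real.pi * (n + 1)) * lowerCap K := by
  intro n K hK hc hb hne
  have h := gen_case hK hc hb hne
  have e : (4 * (2 * Real.exp 1 * ((n + 1 : ℕ) : ℝ)) / Real.pi) =
      (8 * Real.exp 1 / Real.pi * (n + 1)) := by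
    push_cast; ring
  rwa [e] at h

end Pool.Agent.Results.MP_548236_gt.ConvexLinear
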